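import Pool.Agent.Helper11.PC.Defs

/-! # Project PC, packet TBTW: points between two given points of a tree are linearly ordered -/

namespace Pool.Agent.Helper55.PC

universe w

open SimpleGraph Pool.Agent.Helper11.PC

variable {V : Type w} {T : SimpleGraph V}

theorem dist_getVert_le (hc : T.Connected) {u v : V} (W : T.Walk u v) (i k : ℕ)
    (h : i + k ≤ W.length) : T.dist (W.getVert i) (W.getVert (i + k)) ≤ k := by
  induction k with
  | zero => simp
  | succ k ih =>
    have h1 := ih (by omega)
    have h2 : T.Adj (W.getVert (i + k)) (W.getVert (i + k + 1)) :=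
      W.adj_getVert_succ (by omega)
    have h3 : T.dist (W.getVert (i + k)) (W.getVert (i + k + 1)) = 1 := by
      rw [SimpleGraph.dist_eq_one_iff_adj]; exact h2
    have h4 := hc.dist_triangle (u := W.getVert i) (v := W.getVert (i + k))
      (w := W.getVert (i + k + 1))
    rw [← add_assoc]
    omega

theorem exists_walk (hT : T.IsTree) {o q p : V} (h : T.dist o q = T.dist o p + T.dist p q) :
    ∃ W : T.Walk o q, W.IsPath ∧ W.length = T.dist o q ∧ W.getVert (T.dist o p) = p := by
  obtain ⟨w1, h1⟩ := hT.connected.exists_walk_length_eq_dist o p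
  obtain ⟨w2, h2⟩ := hT.connected.exists_walk_length_eq_dist p q
  have h3 : (w1.append w2).length = T.dist o q := by
    rw [Walk.length_append, h1, h2, h]
  refine ⟨w1.append w2, Walk.isPath_of_length_eq_dist _ h3, h3, ?_⟩
  rw [Walk.getVert_append, if_neg (by omega), h1]
  simp

theorem tbtw (hT : T.IsTree) : TreeBtw T := by
  intro o q p₁ p₂ h1 h2 h12
  obtain ⟨W, hW, hWl, hW1⟩ := exists_walk hT h1
  obtain ⟨W', hW', hWl', hW2⟩ := exists_walk hT h2
  have he : W = W' := by
    have := hT.isAcyclic.path_unique ⟨W, hW⟩ ⟨W', hW'⟩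
    exact congrArg Subtype.val this
  subst he
  have h3 := dist_getVert_le hT.connected W (T.dist o p₁) (T.dist o p₂ - T.dist o p₁)
    (by omega)
  have h4 : T.dist o p₁ + (T.dist o p₂ - T.dist o p₁) = T.dist o p₂ := by omega
  rw [h4, hW1, hW2] at h3
  have h5 := hT.connected.dist_triangle (u := p₁) (v := p₂) (w := q)
  omega

end Pool.Agent.Helper55.PC
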